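import Mathlib
import Pool.Agent.Q58.DG.Final

set_option autoImplicit false
open MvPolynomial Filter Topology

namespace Pool.Agent.Results.MP_55ef7c_ag.QuarticDegreeGrowth

open Pool.Agent.Helper993.CS

universe u

/-- `f` is (the tuple of forms of) a dominant rational map of `ℙ^N`: forms of one common degree
`d`, without nonunit common factor, satisfying no polynomial relation. -/
def IsDominantMap {K : Type u} [Field K] {N : ℕ} (d : ℕ)
    (f : Fin (N + 1) → MvPolynomial (Fin (N + 1)) K) : Prop :=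
  (∀ i, (f i).IsHomogeneous d) ∧ (∀ q, (∀ i, q ∣ f i) → IsUnit q) ∧ AlgebraicIndependent K f

/-- `deg n` is the degree of the `n`-th iterate after cancelling all common factors. -/
def IsDegreeSequence {K : Type u} [Field K] {N : ℕ}
    (f : Fin (N + 1) → MvPolynomial (Fin (N + 1)) K) (deg : ℕ → ℕ) : Prop :=
  ∀ n, RedDeg (iter f n) (deg n) ∧ ∀ d', RedDeg (iter f n) d' → d' = deg n

/-- `F ≍ G` -/
def SameGrowth (F G : ℕ → ℝ) : Prop :=
  ∃ c₁ c₂ : ℝ, 0 < c₁ ∧ 0 < c₂ ∧ ∃ c₃ : ℕ, ∀ n ≥ c₃, c₁ * F n ≤ G n ∧ G n ≤ c₂ * F n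

theorem pow_root {c : ℝ} (hc : 0 < c) (k : ℕ) :
    Tendsto (fun n : ℕ => (c * (n : ℝ) ^ k) ^ ((1 : ℝ) / n)) atTop (𝓝 1) := by
  have h1 : Tendsto (fun n : ℕ => c ^ ((1 : ℝ) / n)) atTop (𝓝 1) := by
    have h0 : Tendsto (fun n : ℕ => (1 : ℝ) / n) atTop (𝓝 0) :=
      tendsto_one_div_atTop_nhds_zero_nat
    have h2 := (Real.continuousAt_const_rpow hc.ne' (b := 0)).tendsto.comp h0
    simpa [Function.comp_def] using h2
  have h2 : Tendsto (fun n : ℕ => ((n : ℝ) ^ ((1 : ℝ) / n)) ^ k) atTop (𝓝 (1 ^ k)) :=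
    ((tendsto_rpow_div).comp tendsto_natCast_atTop_atTop).pow k
  have h3 := h1.mul h2
  rw [one_pow, one_mul] at h3
  refine h3.congr fun n => ?_
  have hn : (0 : ℝ) ≤ n := Nat.cast_nonneg n
  rw [Real.mul_rpow hc.le (by positivity), ← Real.rpow_natCast, ← Real.rpow_natCast,
    ← Real.rpow_mul hn, ← Real.rpow_mul hn, mul_comm ((1 : ℝ) / n)]

/-- **Degree growth beyond `n ^ N`.** Over every field of characteristic zero there is a dominant
rational map `f` of `ℙ^3` with dynamical degree `1`, with `deg (f ^ n) ≤ C n ^ 18`, and with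
`deg (f ^ n) ≥ c n ^ 4` for infinitely many `n`; hence `deg (f ^ n) ≍ n ^ ℓ δ ^ n` fails for every
`ℓ` in `{0, 1, 2, 3}`, `δ` being the dynamical degree. -/
theorem result (K : Type u) [Field K] [CharZero K] :
    ∃ (d : ℕ) (f : Fin (3 + 1) → MvPolynomial (Fin (3 + 1)) K) (deg : ℕ → ℕ),
      IsDominantMap d f ∧ IsDegreeSequence f deg ∧
      (∃ C : ℝ, ∀ n : ℕ, 1 ≤ n → (deg n : ℝ) ≤ C * (n : ℝ) ^ 18) ∧
      (∃ c : ℝ, 0 < c ∧ ∀ n₀ : ℕ, ∃ n ≥ n₀, c * (n : ℝ) ^ 4 ≤ deg n) ∧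
      Tendsto (fun n : ℕ => (deg n : ℝ) ^ ((1 : ℝ) / n)) atTop (𝓝 1) ∧
      ∀ δ : ℝ, Tendsto (fun n : ℕ => (deg n : ℝ) ^ ((1 : ℝ) / n)) atTop (𝓝 δ) →
        ∀ ℓ : ℕ, ℓ ≤ 3 →
          ¬ SameGrowth (fun n => (n : ℝ) ^ ℓ * δ ^ n) (fun n => (deg n : ℝ)) := by
  obtain ⟨d, f, hf, hu, hind, deg, hdeg, hpos, ⟨C, hC⟩, ⟨B, hB⟩⟩ := Pool.Agent.Q58.DG.main K
  have hB0 : (0 : ℝ) < B := by
    rcases Nat.eq_zero_or_pos B with h | h
    · have := hB 0
      rw [h] at this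
      simp at this
    · exact_mod_cast h
  have hC0 : (0 : ℝ) < C := by
    rcases Nat.eq_zero_or_pos C with h | h
    · have h1 := hC 1 le_rfl
      have h2 := hpos 1
      rw [h] at h1
      omega
    · exact_mod_cast h
  have hlim : Tendsto (fun n : ℕ => (deg n : ℝ) ^ ((1 : ℝ) / n)) atTop (𝓝 1) := by
    refine tendsto_of_tendsto_of_tendsto_of_le_of_le' tendsto_const_nhds (pow_root hC0 18) ?_ ?_
    · filter_upwards with n
      apply Real.one_le_rpow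
      · exact_mod_cast hpos n
      · positivity
    · filter_upwards [eventually_ge_atTop 1] with n hn
      apply Real.rpow_le_rpow (Nat.cast_nonneg _) _ (by positivity)
      exact_mod_cast hC n hn
  refine ⟨d, f, deg, ⟨hf, hu, hind⟩, hdeg, ⟨C, fun n hn => by exact_mod_cast hC n hn⟩, ?_, hlim,
    ?_⟩
  · refine ⟨1 / (48 * B), by positivity, fun n₀ => ?_⟩
    have h1 : n₀ ≤ 2 ^ n₀ := Nat.lt_two_pow_self.le
    have h2 := hB n₀
    have h3 := hpos (2 ^ n₀)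
    set m := 2 ^ n₀ with hm
    have h4 : (16 : ℝ) ^ n₀ = (m : ℝ) ^ 4 := by
      rw [hm]; push_cast; rw [← pow_mul, mul_comm, pow_mul]; norm_num
    have h5 : (m : ℝ) ^ 4 ≤ B * (deg (2 * m) + deg m + 1) := by
      rw [← h4]; exact_mod_cast h2
    have h3' : (1 : ℝ) ≤ deg m := by exact_mod_cast h3
    by_cases hcase : (1 / (48 * B) : ℝ) * (m : ℝ) ^ 4 ≤ deg m
    · exact ⟨m, h1, hcase⟩
    · push Not at hcase
      refine ⟨2 * m, by omega, ?_⟩
      push_cast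
      have h6 : (B : ℝ) * deg m < (m : ℝ) ^ 4 / 48 := by
        have := mul_lt_mul_of_pos_left hcase hB0
        have h7 : (B : ℝ) * ((1 / (48 * B) : ℝ) * (m : ℝ) ^ 4) = (m : ℝ) ^ 4 / 48 := by
          field_simp
        rwa [h7] at this
      have h8 : (1 / (48 * B) : ℝ) * (2 * (m : ℝ)) ^ 4 = (m : ℝ) ^ 4 / 3 / B := by
        field_simp; ring
      rw [h8, div_le_iff₀ hB0]
      have h9 : (B : ℝ) * 1 ≤ B * deg m := mul_le_mul_of_nonneg_left h3' hB0.le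
      nlinarith
  · intro δ hδ ℓ hℓ
    have hδ1 : δ = 1 := tendsto_nhds_unique hδ hlim
    subst hδ1
    rintro ⟨c₁, c₂, hc₁, hc₂, c₃, hg⟩
    -- the upper bound gives `deg n ≤ c₂ n^3`
    have hup : ∀ n : ℕ, c₃ ≤ n → 1 ≤ n → (deg n : ℝ) ≤ c₂ * (n : ℝ) ^ 3 := by
      intro n hn hn1
      have h1 := (hg n hn).2
      simp only [one_pow, mul_one] at h1
      refine h1.trans (mul_le_mul_of_nonneg_left ?_ hc₂.le)
      exact pow_le_pow_right₀ (by exact_mod_cast hn1) hℓ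
    obtain ⟨k, hk⟩ := exists_nat_gt ((B : ℝ) * (9 * c₂ + 1) + c₃)
    have hk2 : (k : ℝ) < 2 ^ k := by exact_mod_cast Nat.lt_two_pow_self
    have hBc : 0 < (B : ℝ) * (9 * c₂ + 1) := by positivity
    have hc3 : c₃ ≤ 2 ^ k := by
      have : (c₃ : ℝ) ≤ 2 ^ k := by linarith
      exact_mod_cast this
    have h1 := hup (2 ^ k) hc3 Nat.one_le_two_pow
    have h2 := hup (2 * 2 ^ k) (by omega) (by have := Nat.one_le_two_pow (n := k); omega)
    push_cast at h1 h2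
    have h3 : (16 : ℝ) ^ k ≤ B * (deg (2 * 2 ^ k) + deg (2 ^ k) + 1) := by exact_mod_cast hB k
    set y : ℝ := 2 ^ k with hy
    have hy1 : 1 ≤ y := one_le_pow₀ (by norm_num)
    have h16 : (16 : ℝ) ^ k = y ^ 4 := by
      rw [hy, ← pow_mul, mul_comm, pow_mul]; norm_num
    rw [h16] at h3
    have h4 : y ^ 4 ≤ B * (9 * c₂ + 1) * y ^ 3 := by
      have h5 : (deg (2 * 2 ^ k) : ℝ) + deg (2 ^ k) + 1 ≤ (9 * c₂ + 1) * y ^ 3 := by
        have h6 : (1 : ℝ) ≤ y ^ 3 := one_le_pow₀ hy1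
        nlinarith
      calc y ^ 4 ≤ B * (deg (2 * 2 ^ k) + deg (2 ^ k) + 1) := h3
        _ ≤ B * ((9 * c₂ + 1) * y ^ 3) := mul_le_mul_of_nonneg_left h5 hB0.le
        _ = B * (9 * c₂ + 1) * y ^ 3 := by ring
    have h7 : y ≤ B * (9 * c₂ + 1) := by
      have h8 : y * y ^ 3 ≤ B * (9 * c₂ + 1) * y ^ 3 := by
        calc y * y ^ 3 = y ^ 4 := by ring
          _ ≤ _ := h4
      exact le_of_mul_le_mul_right h8 (by positivity)
    have hc30 : (0 : ℝ) ≤ c₃ := Nat.cast_nonneg _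
    linarith

end Pool.Agent.Results.MP_55ef7c_ag.QuarticDegreeGrowth
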